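import Pool.Agent.Helper63.NH.Arm
import Pool.Agent.Helper80.NH.Stm2

/-!
# The second half of ARMH

`r ≤ br G₁ Um / 2 + br G₂ Up / 2` for an arm whose two gaps have the sum at most 160 degrees, in the
region of the case I of STAR.  The numbers `Q` are kept exactly, the numbers `P` are relaxed.
-/

set_option autoImplicit false

namespace H11ST
namespace NH
namespace ArmP

open Real

/-- The tangent of `1 / Q`, second form. -/
theorem tool2 {Q a : ℝ} (hQ : 0 < Q) (ha : 0 < a) : (2 * a - Q) / a ^ 2 ≤ 1 / Q := by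
  rw [div_le_div_iff₀ (by positivity) hQ]
  nlinarith [sq_nonneg (Q - a)]

/-- The identity for the gain, with the exact `Q`. -/
theorem br_eqQ {b w G r : ℝ} (hb1 : -(π / 2) ≤ b) (hb2 : b ≤ π / 2) (hw1 : -(π / 2) ≤ w)
    (hw2 : w ≤ π / 2) (hs : sin w = sin b - √3 / 2 * r) (hr : 0 < r) :
    ∃ P Q : ℝ, 0 < P ∧ 0 < Q ∧ P ^ 2 ≤ 1 + (sin b + sin w) / 2 ∧
      (∀ m : ℝ, 0 < m → Q ≤ (√2 * cos (π / 4 + b / 2) + (1 - sin w + m ^ 2) / (2 * m)) / 2) ∧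
      br G (b - w) = r * (√3 / (2 * √2)) *
        (cos (π / 4 + b / 2 - G / 2) * (1 / P) + sin (π / 4 + b / 2 - G / 2) * (1 / Q)) := by
  have h3 : 0 < √3 := by positivity
  have h2 : 0 < √2 := by positivity
  have hlt : sin w < sin b := by
    have : 0 < √3 / 2 * r := by positivity
    linarith
  obtain ⟨pb, epb⟩ : ∃ x, x = √2 * sin (π / 4 + b / 2) := ⟨_, rfl⟩
  obtain ⟨pw, epw⟩ : ∃ x, x = √2 * sin (π / 4 + w / 2) := ⟨_, rfl⟩
  obtain ⟨qb, eqb⟩ : ∃ x, x = √2 * cos (π / 4 + b / 2) := ⟨_, rfl⟩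
  obtain ⟨qw, eqw⟩ : ∃ x, x = √2 * cos (π / 4 + w / 2) := ⟨_, rfl⟩
  have spb : pb ^ 2 = 1 + sin b := by rw [epb]; exact pw_sq b
  have spw : pw ^ 2 = 1 + sin w := by rw [epw]; exact pw_sq w
  have sqb : qb ^ 2 = 1 - sin b := by rw [eqb]; exact qw_sq b
  have sqw : qw ^ 2 = 1 - sin w := by rw [eqw]; exact qw_sq w
  have npb : 0 ≤ pb := by
    rw [epb]
    exact mul_nonneg h2.le (sin_nonneg_of_nonneg_of_le_pi (by linarith) (by linarith))
  have npw : 0 ≤ pw := by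
    rw [epw]
    exact mul_nonneg h2.le (sin_nonneg_of_nonneg_of_le_pi (by linarith) (by linarith))
  have nqb : 0 ≤ qb := by
    rw [eqb]
    exact mul_nonneg h2.le (cos_nonneg_of_neg_pi_div_two_le_of_le (by linarith) (by linarith))
  have nqw : 0 ≤ qw := by
    rw [eqw]
    exact mul_nonneg h2.le (cos_nonneg_of_neg_pi_div_two_le_of_le (by linarith) (by linarith))
  have hm1 := neg_one_le_sin w
  have hm2 := sin_le_one b
  have ppb : 0 < pb := by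
    rcases npb.lt_or_eq with h | h
    · exact h
    · rw [← h] at spb
      nlinarith
  have pqw : 0 < qw := by
    rcases nqw.lt_or_eq with h | h
    · exact h
    · rw [← h] at sqw
      nlinarith
  have hP : 0 < (pb + pw) / 2 := by linarith
  have hQ : 0 < (qb + qw) / 2 := by linarith
  refine ⟨(pb + pw) / 2, (qb + qw) / 2, hP, hQ, ?_, ?_, ?_⟩
  · nlinarith [sq_nonneg (pb - pw)]
  · intro m hm
    rw [← eqb]
    have h5 : qw ≤ (1 - sin w + m ^ 2) / (2 * m) := by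
      rw [← sqw, le_div_iff₀ (by positivity)]
      nlinarith [sq_nonneg (qw - m)]
    linarith
  · obtain ⟨dl, edl⟩ : ∃ dl, dl = π / 4 + b / 2 - G / 2 := ⟨_, rfl⟩
    rw [← edl]
    have e1 : G / 2 = (π / 4 + b / 2) - dl := by rw [edl]; ring
    have e2 : (G - (b - w)) / 2 = (π / 4 + w / 2) - dl := by rw [edl]; ring
    have s2 : √2 * √2 = 2 := Real.mul_self_sqrt (by norm_num)
    have k1 : 2 * sin (G / 2) = √2 * (pb * cos dl - qb * sin dl) := by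
      rw [e1, sin_sub, epb, eqb]
      linear_combination (-(sin (π / 4 + b / 2) * cos dl - cos (π / 4 + b / 2) * sin dl)) * s2
    have k2 : 2 * sin ((G - (b - w)) / 2) = √2 * (pw * cos dl - qw * sin dl) := by
      rw [e2, sin_sub, epw, eqw]
      linear_combination (-(sin (π / 4 + w / 2) * cos dl - cos (π / 4 + w / 2) * sin dl)) * s2
    have k3 : br G (b - w) = √2 * (cos dl * (pb - pw) + sin dl * (qw - qb)) := by
      unfold br ch
      rw [k1, k2]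
      ring
    have k4 : pb - pw = √3 / 2 * r / 2 * (1 / ((pb + pw) / 2)) := by
      rw [mul_one_div, eq_div_iff hP.ne']
      linarith [show (pb - pw) * ((pb + pw) / 2) = (pb ^ 2 - pw ^ 2) / 2 by ring]
    have k5 : qw - qb = √3 / 2 * r / 2 * (1 / ((qb + qw) / 2)) := by
      rw [mul_one_div, eq_div_iff hQ.ne']
      linarith [show (qw - qb) * ((qb + qw) / 2) = (qw ^ 2 - qb ^ 2) / 2 by ring]
    rw [k3]
    have k6 : √2 * (√3 / 2 * r / 2) = r * (√3 / (2 * √2)) := by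
      field_simp
      rw [Real.sq_sqrt (by norm_num)]
    calc √2 * (cos dl * (pb - pw) + sin dl * (qw - qb))
        = √2 * (cos dl * (√3 / 2 * r / 2 * (1 / ((pb + pw) / 2))) +
          sin dl * (√3 / 2 * r / 2 * (1 / ((qb + qw) / 2)))) := by rw [← k4, ← k5]
      _ = √2 * (√3 / 2 * r / 2) * (cos dl * (1 / ((pb + pw) / 2)) +
          sin dl * (1 / ((qb + qw) / 2))) := by ring
      _ = _ := by rw [k6]

/-- What one side of an arm gives, with the exact `Q`. -/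
structure SideQ (b w r dl g : ℝ) (P Q : ℝ) : Prop where
  p0 : 0 < P
  q0 : 0 < Q
  pp : P ^ 2 ≤ 1 + (sin b + sin w) / 2
  qq : ∀ m : ℝ, 0 < m → Q ≤ (√2 * cos (π / 4 + b / 2) + (1 - sin w + m ^ 2) / (2 * m)) / 2
  le : r * (√3 / (2 * √2)) * (cos dl * (1 / P) + sin dl * (1 / Q)) ≤ g

theorem sideQ {b U G G0 r : ℝ} (hb1 : 0 ≤ b) (hb2 : b ≤ π / 2) (hU : 0 ≤ U)
    (hw : -(π / 2) ≤ b - U) (h : r = 4 / √3 * (sin (U / 2) * cos (b - U / 2))) (hr : 0 < r)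
    (hUG : U ≤ G) (hG : G ≤ G0) (h0 : G0 ≤ 2 * π) :
    ∃ P Q : ℝ, SideQ b (b - U) r (π / 4 + b / 2 - G0 / 2) (br G U) P Q := by
  have hpi := pi_pos
  obtain ⟨P, Q, h1, h2, h3, h4, h5⟩ := br_eqQ (b := b) (w := b - U) (G := G0) (r := r)
    (by linarith) hb2 hw (by linarith) (sin_rel h) hr
  refine ⟨P, Q, h1, h2, h3, h4, ?_⟩
  rw [← h5]
  have e : b - (b - U) = U := by ring
  rw [e]
  exact br_anti hU hUG hG h0

theorem cos45 (d : ℝ) : cos (π / 4 - d) = √2 / 2 * (cos d + sin d) := by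
  rw [cos_sub, cos_pi_div_four, sin_pi_div_four]
  ring

theorem sin45 (d : ℝ) : sin (π / 4 - d) = √2 / 2 * (cos d - sin d) := by
  rw [sin_sub, cos_pi_div_four, sin_pi_div_four]
  ring

theorem r2_lo : (0.7071 : ℝ) ≤ √2 / 2 := by
  have h : (1.4142 : ℝ) ≤ √2 := by
    apply Real.le_sqrt_of_sq_le
    norm_num
  linarith

theorem tr {d lo hi c s t : ℝ} (h0 : 0 < lo) (h1 : lo ≤ d) (h2 : d ≤ hi) (h3 : hi ≤ 1)
    (hc : c ≤ 1 - hi ^ 2 / 2) (hs : s ≤ lo - hi ^ 3 / 4) (ht : hi ≤ t) :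
    c ≤ cos d ∧ s ≤ sin d ∧ sin d ≤ t := by
  refine ⟨?_, ?_, ?_⟩
  · have := one_sub_sq_div_two_le_cos (x := d)
    nlinarith
  · have := sin_gt_sub_cube (x := d) (by linarith)
    have h5 : d ^ 3 ≤ hi ^ 3 := pow_le_pow_left₀ (by linarith) h2 3
    have h6 : 0 ≤ hi ^ 3 := pow_nonneg (by linarith) 3
    linarith
  · have := sin_le (x := d) (by linarith)
    linarith

theorem k45 {d c s t : ℝ} (h : c ≤ cos d ∧ s ≤ sin d ∧ sin d ≤ t) (h0 : 0 ≤ c + s)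
    (h1 : 0 ≤ c - t) :
    0.7071 * (c + s) ≤ cos (π / 4 - d) ∧ 0.7071 * (c - t) ≤ sin (π / 4 - d) := by
  have h2 := r2_lo
  obtain ⟨a1, a2, a3⟩ := h
  rw [cos45, sin45]
  constructor
  · exact mul_le_mul h2 (by linarith) h0 (by positivity)
  · exact mul_le_mul h2 (by linarith) h1 (by positivity)

theorem tr5 : 0.7655 ≤ cos (2 * π / 9) ∧ 0.6420 ≤ sin (2 * π / 9) := by
  have p1 := pi_gt_d6
  have p2 := pi_lt_d6
  have h := k45 (tr (d := π / 36) (lo := 0.08726) (hi := 0.08727) (c := 0.99619) (s := 0.08709)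
    (t := 0.08727) (by norm_num) (by linarith) (by linarith) (by norm_num) (by norm_num)
    (by norm_num) (by norm_num)) (by norm_num) (by norm_num)
  rw [show 2 * π / 9 = π / 4 - π / 36 by ring]
  constructor
  · refine le_trans (by norm_num) h.1
  · refine le_trans (by norm_num) h.2

theorem tr7 : 0.7930 ≤ cos (5 * π / 24) ∧ 0.6080 ≤ sin (5 * π / 24) := by
  have p1 := pi_gt_d6
  have p2 := pi_lt_d6
  have h := k45 (tr (d := π / 24) (lo := 0.13089) (hi := 0.1309) (c := 0.99143) (s := 0.13032)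
    (t := 0.1309) (by norm_num) (by linarith) (by linarith) (by norm_num) (by norm_num)
    (by norm_num) (by norm_num)) (by norm_num) (by norm_num)
  rw [show 5 * π / 24 = π / 4 - π / 24 by ring]
  constructor
  · refine le_trans (by norm_num) h.1
  · refine le_trans (by norm_num) h.2

theorem tr12 : 0.8426 ≤ cos (13 * π / 72) ∧ 0.5355 ≤ sin (13 * π / 72) := by
  have p1 := pi_gt_d6
  have p2 := pi_lt_d6
  have h := k45 (tr (d := 5 * π / 72) (lo := 0.21816) (hi := 0.21817) (c := 0.9762) (s := 0.21556)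
    (t := 0.21817) (by norm_num) (by linarith) (by linarith) (by norm_num) (by norm_num)
    (by norm_num) (by norm_num)) (by norm_num) (by norm_num)
  rw [show 13 * π / 72 = π / 4 - 5 * π / 72 by ring]
  constructor
  · refine le_trans (by norm_num) h.1
  · refine le_trans (by norm_num) h.2

theorem tr10 : 0.8187 ≤ cos (7 * π / 36) ∧ 0.5728 ≤ sin (7 * π / 36) := by
  have p1 := pi_gt_d6
  have p2 := pi_lt_d6
  have h := k45 (tr (d := π / 18) (lo := 0.17453) (hi := 0.17454) (c := 0.98476) (s := 0.1732)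
    (t := 0.17454) (by norm_num) (by linarith) (by linarith) (by norm_num) (by norm_num)
    (by norm_num) (by norm_num)) (by norm_num) (by norm_num)
  rw [show 7 * π / 36 = π / 4 - π / 18 by ring]
  constructor
  · refine le_trans (by norm_num) h.1
  · refine le_trans (by norm_num) h.2

/-- `qb` on the right side. -/
theorem qbp {al : ℝ} (h0 : 0 ≤ al) (h1 : al ≤ π / 6) :
    √2 * cos (π / 4 + (π / 3 - al) / 2) ≤ 1.41422 * (0.2618 + sin al / 2) := by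
  have p1 := pi_gt_d6
  have p2 := pi_lt_d6
  have r2 : √2 ≤ 1.41422 := by
    rw [Real.sqrt_le_left (by norm_num)]
    norm_num
  have e : cos (π / 4 + (π / 3 - al) / 2) = sin (π / 12 + al / 2) := by
    rw [← cos_pi_div_two_sub]
    congr 1
    ring
  have c1 : 0 ≤ cos (al / 2) := cos_nonneg_of_neg_pi_div_two_le_of_le (by linarith) (by linarith)
  have s1 : 0 ≤ sin (al / 2) := sin_nonneg_of_nonneg_of_le_pi (by linarith) (by linarith)
  have c2 : cos (π / 12) ≤ cos (al / 2) :=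
    cos_le_cos_of_nonneg_of_le_pi (by linarith) (by linarith) (by linarith)
  have s2 : sin (π / 12) ≤ 0.2618 := by
    have := sin_le (x := π / 12) (by linarith)
    linarith
  have s3 : 0 ≤ sin (π / 12) := sin_nonneg_of_nonneg_of_le_pi (by linarith) (by linarith)
  have e2 : sin al = 2 * sin (al / 2) * cos (al / 2) := by
    rw [← sin_two_mul]
    congr 1
    ring
  have h2 : sin (π / 12 + al / 2) ≤ 0.2618 + sin al / 2 := by
    rw [sin_add, e2]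
    have k1 : sin (π / 12) * cos (al / 2) ≤ 0.2618 * 1 :=
      mul_le_mul s2 (cos_le_one _) c1 (by norm_num)
    have k2 : cos (π / 12) * sin (al / 2) ≤ cos (al / 2) * sin (al / 2) :=
      mul_le_mul_of_nonneg_right c2 s1
    linarith
  rw [e]
  refine mul_le_mul r2 h2 ?_ (by norm_num)
  exact sin_nonneg_of_nonneg_of_le_pi (by linarith) (by linarith)

/-- `qb` on the left side. -/
theorem qbm {al : ℝ} (h0 : 0 ≤ al) (h1 : al ≤ π / 6) :
    √2 * cos (π / 4 + (π / 3 + al) / 2) ≤ 1.41422 * (0.2618 - 0.48285 * sin al) := by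
  have p1 := pi_gt_d6
  have p2 := pi_lt_d6
  have r2 : √2 ≤ 1.41422 := by
    rw [Real.sqrt_le_left (by norm_num)]
    norm_num
  have e : cos (π / 4 + (π / 3 + al) / 2) = sin (π / 12 - al / 2) := by
    rw [← cos_pi_div_two_sub]
    congr 1
    ring
  have c1 : 0 ≤ cos (al / 2) := cos_nonneg_of_neg_pi_div_two_le_of_le (by linarith) (by linarith)
  have s1 : 0 ≤ sin (al / 2) := sin_nonneg_of_nonneg_of_le_pi (by linarith) (by linarith)
  have c2 : 0.9657 ≤ cos (π / 12) := by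
    have := one_sub_sq_div_two_le_cos (x := π / 12)
    nlinarith
  have s2 : sin (π / 12) ≤ 0.2618 := by
    have := sin_le (x := π / 12) (by linarith)
    linarith
  have e2 : sin al = 2 * sin (al / 2) * cos (al / 2) := by
    rw [← sin_two_mul]
    congr 1
    ring
  have h3 : sin al ≤ 2 * sin (al / 2) := by
    rw [e2]
    have := cos_le_one (al / 2)
    nlinarith
  have h2 : sin (π / 12 - al / 2) ≤ 0.2618 - 0.48285 * sin al := by
    rw [sin_sub]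
    have k1 : sin (π / 12) * cos (al / 2) ≤ 0.2618 * 1 :=
      mul_le_mul s2 (cos_le_one _) c1 (by norm_num)
    have k2 : 0.9657 * sin (al / 2) ≤ cos (π / 12) * sin (al / 2) :=
      mul_le_mul_of_nonneg_right c2 s1
    linarith
  rw [e]
  refine mul_le_mul r2 h2 ?_ (by norm_num)
  exact sin_nonneg_of_nonneg_of_le_pi (by linarith) (by linarith)

theorem pA1 {P Q P' Q' x c r y : ℝ} (hP : 0 < P) (hQ : 0 < Q) (hP' : 0 < P') (hQ' : 0 < Q')
    (p2 : P ^ 2 ≤ 1 + c - x / 2 - r / 2) (p2' : P' ^ 2 ≤ 1 + c + x / 2 - r / 2)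
    (q2 : ∀ m : ℝ, 0 < m →
      Q ≤ (1.41422 * (0.2618 + x / 2) + (1 - c + x / 2 + r + m ^ 2) / (2 * m)) / 2)
    (q2' : ∀ m : ℝ, 0 < m →
      Q' ≤ (1.41422 * (0.2618 - 0.48285 * x) + (1 - c - x / 2 + r + m ^ 2) / (2 * m)) / 2)
    (hr : r ≤ c - y) (hy : 0.4330 - 0.2321 * x ≤ y) (hc : c ≤ 0.87296 - 0.10911 * x)
    (hx1 : 0 ≤ x) (hx2 : x ≤ 0.25) :
    3.269 ≤ 0.7930 * (1 / P) + 0.6080 * (1 / Q) + 0.8426 * (1 / P') + 0.5355 * (1 / Q') := by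
  have t1 := tool hP (show (0 : ℝ) < 1.261 by norm_num)
  have t2 := tool2 hQ (show (0 : ℝ) < 0.619 by norm_num)
  have t3 := tool hP' (show (0 : ℝ) < 1.295 by norm_num)
  have t4 := tool2 hQ' (show (0 : ℝ) < 0.52 by norm_num)
  have q1 := q2 0.8 (by norm_num)
  have q1' := q2' 0.738 (by norm_num)
  obtain ⟨u1, e1⟩ : ∃ u, u = 1 / P := ⟨_, rfl⟩
  obtain ⟨u2, e2⟩ : ∃ u, u = 1 / Q := ⟨_, rfl⟩
  obtain ⟨u3, e3⟩ : ∃ u, u = 1 / P' := ⟨_, rfl⟩
  obtain ⟨u4, e4⟩ : ∃ u, u = 1 / Q' := ⟨_, rfl⟩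
  rw [← e1, ← e2, ← e3, ← e4]
  rw [← e1, div_le_iff₀ (by norm_num)] at t1
  rw [← e2, div_le_iff₀ (by norm_num)] at t2
  rw [← e3, div_le_iff₀ (by norm_num)] at t3
  rw [← e4, div_le_iff₀ (by norm_num)] at t4
  norm_num at t1 t2 t3 t4 q1 q1' p2 p2' hr hy hc hx1 hx2 ⊢
  linarith

theorem pA2 {P Q P' Q' x c r y : ℝ} (hP : 0 < P) (hQ : 0 < Q) (hP' : 0 < P') (hQ' : 0 < Q')
    (p2 : P ^ 2 ≤ 1 + c - x / 2 - r / 2) (p2' : P' ^ 2 ≤ 1 + c + x / 2 - r / 2)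
    (q2 : ∀ m : ℝ, 0 < m →
      Q ≤ (1.41422 * (0.2618 + x / 2) + (1 - c + x / 2 + r + m ^ 2) / (2 * m)) / 2)
    (q2' : ∀ m : ℝ, 0 < m →
      Q' ≤ (1.41422 * (0.2618 - 0.48285 * x) + (1 - c - x / 2 + r + m ^ 2) / (2 * m)) / 2)
    (hr : r ≤ c - y) (hy : 0.4330 - 0.2321 * x ≤ y) (hc : c ≤ 0.87296 - 0.10911 * x)
    (hx1 : 0 ≤ x) (hx2 : x ≤ 0.25) :
    3.269 ≤ 0.8660 * (1 / P) + 0.5 * (1 / Q) + 0.7655 * (1 / P') + 0.6420 * (1 / Q') := by
  have t1 := tool hP (show (0 : ℝ) < 1.286 by norm_num)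
  have t2 := tool2 hQ (show (0 : ℝ) < 0.561 by norm_num)
  have t3 := tool hP' (show (0 : ℝ) < 1.286 by norm_num)
  have t4 := tool2 hQ' (show (0 : ℝ) < 0.562 by norm_num)
  have q1 := q2 0.752 (by norm_num)
  have q1' := q2' 0.753 (by norm_num)
  obtain ⟨u1, e1⟩ : ∃ u, u = 1 / P := ⟨_, rfl⟩
  obtain ⟨u2, e2⟩ : ∃ u, u = 1 / Q := ⟨_, rfl⟩
  obtain ⟨u3, e3⟩ : ∃ u, u = 1 / P' := ⟨_, rfl⟩
  obtain ⟨u4, e4⟩ : ∃ u, u = 1 / Q' := ⟨_, rfl⟩
  rw [← e1, ← e2, ← e3, ← e4]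
  rw [← e1, div_le_iff₀ (by norm_num)] at t1
  rw [← e2, div_le_iff₀ (by norm_num)] at t2
  rw [← e3, div_le_iff₀ (by norm_num)] at t3
  rw [← e4, div_le_iff₀ (by norm_num)] at t4
  norm_num at t1 t2 t3 t4 q1 q1' p2 p2' hr hy hc hx1 hx2 ⊢
  linarith

theorem pB1 {P Q P' Q' x c r y : ℝ} (hP : 0 < P) (hQ : 0 < Q) (hP' : 0 < P') (hQ' : 0 < Q')
    (p2 : P ^ 2 ≤ 1 + c - x / 2 - r / 2) (p2' : P' ^ 2 ≤ 1 + c + x / 2 - r / 2)
    (q2 : ∀ m : ℝ, 0 < m →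
      Q ≤ (1.41422 * (0.2618 + x / 2) + (1 - c + x / 2 + r + m ^ 2) / (2 * m)) / 2)
    (q2' : ∀ m : ℝ, 0 < m →
      Q' ≤ (1.41422 * (0.2618 - 0.48285 * x) + (1 - c - x / 2 + r + m ^ 2) / (2 * m)) / 2)
    (hr : r ≤ c - y) (hy : 0.7498 - 1.5 * x ≤ y) (hc : c ≤ 0.93427 - 0.3503 * x)
    (hx1 : 0.25 ≤ x) (hx2 : x ≤ 0.5) :
    3.269 ≤ 0.8187 * (1 / P) + 0.5728 * (1 / Q) + 0.8187 * (1 / P') + 0.5728 * (1 / Q') := by
  have t1 := tool hP (show (0 : ℝ) < 1.105 by norm_num)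
  have t2 := tool2 hQ (show (0 : ℝ) < 0.868 by norm_num)
  have t3 := tool hP' (show (0 : ℝ) < 1.284 by norm_num)
  have t4 := tool2 hQ' (show (0 : ℝ) < 0.451 by norm_num)
  have q1 := q2 1.06 (by norm_num)
  have q1' := q2' 0.83 (by norm_num)
  obtain ⟨u1, e1⟩ : ∃ u, u = 1 / P := ⟨_, rfl⟩
  obtain ⟨u2, e2⟩ : ∃ u, u = 1 / Q := ⟨_, rfl⟩
  obtain ⟨u3, e3⟩ : ∃ u, u = 1 / P' := ⟨_, rfl⟩
  obtain ⟨u4, e4⟩ : ∃ u, u = 1 / Q' := ⟨_, rfl⟩
  rw [← e1, ← e2, ← e3, ← e4]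
  rw [← e1, div_le_iff₀ (by norm_num)] at t1
  rw [← e2, div_le_iff₀ (by norm_num)] at t2
  rw [← e3, div_le_iff₀ (by norm_num)] at t3
  rw [← e4, div_le_iff₀ (by norm_num)] at t4
  norm_num at t1 t2 t3 t4 q1 q1' p2 p2' hr hy hc hx1 hx2 ⊢
  linarith

theorem pB2 {P Q P' Q' x c r y : ℝ} (hP : 0 < P) (hQ : 0 < Q) (hP' : 0 < P') (hQ' : 0 < Q')
    (p2 : P ^ 2 ≤ 1 + c - x / 2 - r / 2) (p2' : P' ^ 2 ≤ 1 + c + x / 2 - r / 2)
    (q2 : ∀ m : ℝ, 0 < m →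
      Q ≤ (1.41422 * (0.2618 + x / 2) + (1 - c + x / 2 + r + m ^ 2) / (2 * m)) / 2)
    (q2' : ∀ m : ℝ, 0 < m →
      Q' ≤ (1.41422 * (0.2618 - 0.48285 * x) + (1 - c - x / 2 + r + m ^ 2) / (2 * m)) / 2)
    (hr : r ≤ c - y) (hy : 0.7498 - 1.5 * x ≤ y) (hc : c ≤ 0.93427 - 0.3503 * x)
    (hx1 : 0.25 ≤ x) (hx2 : x ≤ 0.5) :
    3.269 ≤ 0.8660 * (1 / P) + 0.5 * (1 / Q) + 0.7655 * (1 / P') + 0.6420 * (1 / Q') := by
  have t1 := tool hP (show (0 : ℝ) < 1.131 by norm_num)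
  have t2 := tool2 hQ (show (0 : ℝ) < 0.84 by norm_num)
  have t3 := tool hP' (show (0 : ℝ) < 1.292 by norm_num)
  have t4 := tool2 hQ' (show (0 : ℝ) < 0.452 by norm_num)
  have q1 := q2 1.015 (by norm_num)
  have q1' := q2' 0.806 (by norm_num)
  obtain ⟨u1, e1⟩ : ∃ u, u = 1 / P := ⟨_, rfl⟩
  obtain ⟨u2, e2⟩ : ∃ u, u = 1 / Q := ⟨_, rfl⟩
  obtain ⟨u3, e3⟩ : ∃ u, u = 1 / P' := ⟨_, rfl⟩
  obtain ⟨u4, e4⟩ : ∃ u, u = 1 / Q' := ⟨_, rfl⟩
  rw [← e1, ← e2, ← e3, ← e4]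
  rw [← e1, div_le_iff₀ (by norm_num)] at t1
  rw [← e2, div_le_iff₀ (by norm_num)] at t2
  rw [← e3, div_le_iff₀ (by norm_num)] at t3
  rw [← e4, div_le_iff₀ (by norm_num)] at t4
  norm_num at t1 t2 t3 t4 q1 q1' p2 p2' hr hy hc hx1 hx2 ⊢
  linarith

theorem y_eq (x : ℝ) : √3 / 2 * √(1 / 4 - x ^ 2) = √(3 / 4 * (1 / 4 - x ^ 2)) := by
  rw [Real.sqrt_mul (by norm_num), Real.sqrt_div (by norm_num)]
  congr 2
  rw [show (4 : ℝ) = 2 ^ 2 by norm_num, Real.sqrt_sq (by norm_num)]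

/-- the lower bounds of `√3 / 2 * √(1 / 4 - x ^ 2)` -/
theorem yA {x : ℝ} (h0 : 0 ≤ x) (h1 : x ≤ 0.25) :
    0.4330 - 0.2321 * x ≤ √3 / 2 * √(1 / 4 - x ^ 2) := by
  rw [y_eq]
  apply Real.le_sqrt_of_sq_le
  nlinarith [mul_nonneg h0 (sub_nonneg.2 h1)]

theorem yB {x : ℝ} (h0 : 0.25 ≤ x) (h1 : x ≤ 0.5) :
    0.7498 - 1.5 * x ≤ √3 / 2 * √(1 / 4 - x ^ 2) := by
  rcases le_total (0.7498 - 1.5 * x) 0 with h | h
  · exact h.trans (by positivity)
  rw [y_eq]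
  apply Real.le_sqrt_of_sq_le
  nlinarith [mul_nonneg (sub_nonneg.2 h0) h]

theorem s3_hi : √3 / 2 ≤ 0.866026 := by
  have : √3 ≤ 1.732052 := by
    rw [Real.sqrt_le_left (by norm_num)]
    norm_num
  linarith

theorem cA {x c : ℝ} (h : x ^ 2 + c ^ 2 = 1) (h0 : 0 ≤ x) (h1 : x ≤ 1) (hc : 0 ≤ c) :
    √3 / 2 * c ≤ 0.87296 - 0.10911 * x := by
  have h2 : c ≤ 1.008 - 0.126 * x := by
    by_contra hn
    push Not at hn
    nlinarith [sq_nonneg (1.015876 * x - 0.127008)]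
  have h3 := mul_le_mul s3_hi h2 hc (by norm_num)
  norm_num at h3 ⊢
  linarith

theorem cB {x c : ℝ} (h : x ^ 2 + c ^ 2 = 1) (h0 : 0 ≤ x) (h1 : x ≤ 1) (hc : 0 ≤ c) :
    √3 / 2 * c ≤ 0.93427 - 0.3503 * x := by
  have h2 : c ≤ 1.0788 - 0.4045 * x := by
    by_contra hn
    push Not at hn
    nlinarith [sq_nonneg (1.16362 * x - 0.436375)]
  have h3 := mul_le_mul s3_hi h2 hc (by norm_num)
  norm_num at h3 ⊢
  linarith

/-- The data of the two sides. -/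
structure Two (P Q P' Q' x c r y : ℝ) : Prop where
  hP : 0 < P
  hQ : 0 < Q
  hP' : 0 < P'
  hQ' : 0 < Q'
  p2 : P ^ 2 ≤ 1 + c - x / 2 - r / 2
  p2' : P' ^ 2 ≤ 1 + c + x / 2 - r / 2
  q2 : ∀ m : ℝ, 0 < m →
      Q ≤ (1.41422 * (0.2618 + x / 2) + (1 - c + x / 2 + r + m ^ 2) / (2 * m)) / 2
  q2' : ∀ m : ℝ, 0 < m →
      Q' ≤ (1.41422 * (0.2618 - 0.48285 * x) + (1 - c - x / 2 + r + m ^ 2) / (2 * m)) / 2
  hr : r ≤ c - y

theorem mulk {k K u : ℝ} (h : k ≤ K) (hu : 0 < u) : k * (1 / u) ≤ K * (1 / u) :=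
  mul_le_mul_of_nonneg_right h (by positivity)

theorem e30 {P Q P' Q' : ℝ} (hP : 0 < P) (hQ : 0 < Q) (hP' : 0 < P') (hQ' : 0 < Q')
    (h : 3.269 ≤ 0.8660 * (1 / P) + 0.5 * (1 / Q) + 0.7655 * (1 / P') + 0.6420 * (1 / Q')) :
    3.269 ≤ cos (π / 6) * (1 / P) + sin (π / 6) * (1 / Q) + cos (7 * π / 18 - π / 6) * (1 / P') +
      sin (7 * π / 18 - π / 6) * (1 / Q') := by
  rw [show 7 * π / 18 - π / 6 = 2 * π / 9 by ring, cos_pi_div_six, sin_pi_div_six]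
  have k1 := mulk s3_lo hP
  have k2 := mulk (show (0.5 : ℝ) ≤ 1 / 2 by norm_num) hQ
  have k3 := mulk tr5.1 hP'
  have k4 := mulk tr5.2 hQ'
  linarith

theorem e37 {P Q P' Q' : ℝ} (hP : 0 < P) (hQ : 0 < Q) (hP' : 0 < P') (hQ' : 0 < Q')
    (h : 3.269 ≤ 0.7930 * (1 / P) + 0.6080 * (1 / Q) + 0.8426 * (1 / P') + 0.5355 * (1 / Q')) :
    3.269 ≤ cos (5 * π / 24) * (1 / P) + sin (5 * π / 24) * (1 / Q) +
      cos (7 * π / 18 - 5 * π / 24) * (1 / P') + sin (7 * π / 18 - 5 * π / 24) * (1 / Q') := by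
  rw [show 7 * π / 18 - 5 * π / 24 = 13 * π / 72 by ring]
  have k1 := mulk tr7.1 hP
  have k2 := mulk tr7.2 hQ
  have k3 := mulk tr12.1 hP'
  have k4 := mulk tr12.2 hQ'
  linarith

theorem e35 {P Q P' Q' : ℝ} (hP : 0 < P) (hQ : 0 < Q) (hP' : 0 < P') (hQ' : 0 < Q')
    (h : 3.269 ≤ 0.8187 * (1 / P) + 0.5728 * (1 / Q) + 0.8187 * (1 / P') + 0.5728 * (1 / Q')) :
    3.269 ≤ cos (7 * π / 36) * (1 / P) + sin (7 * π / 36) * (1 / Q) +
      cos (7 * π / 18 - 7 * π / 36) * (1 / P') + sin (7 * π / 18 - 7 * π / 36) * (1 / Q') := by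
  rw [show 7 * π / 18 - 7 * π / 36 = 7 * π / 36 by ring]
  have k1 := mulk tr10.1 hP
  have k2 := mulk tr10.2 hQ
  have k3 := mulk tr10.1 hP'
  have k4 := mulk tr10.2 hQ'
  linarith

/-- Between two angles, both sides. -/
theorem btw {t t0 t1 p q p' q' m : ℝ} (h0 : 0 ≤ t0) (h1 : t0 ≤ t) (h2 : t ≤ t1)
    (h3 : t1 ≤ π / 2) (h4 : t0 < t1) (hm : 0 ≤ m)
    (a : m ≤ cos t0 * p + sin t0 * q + cos (7 * π / 18 - t0) * p' + sin (7 * π / 18 - t0) * q')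
    (b : m ≤ cos t1 * p + sin t1 * q + cos (7 * π / 18 - t1) * p' + sin (7 * π / 18 - t1) * q') :
    m ≤ cos t * p + sin t * q + cos (7 * π / 18 - t) * p' + sin (7 * π / 18 - t) * q' := by
  have key : ∀ s : ℝ, cos s * p + sin s * q + cos (7 * π / 18 - s) * p' +
      sin (7 * π / 18 - s) * q' = cos s * (p + cos (7 * π / 18) * p' + sin (7 * π / 18) * q') +
      sin s * (q + sin (7 * π / 18) * p' - cos (7 * π / 18) * q') := by
    intro s
    rw [cos_sub, sin_sub]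
    ring
  rw [key] at a b ⊢
  exact between h0 h1 h2 h3 h4 hm a b

theorem numb {P Q P' Q' x c r y t : ℝ} (h : Two P Q P' Q' x c r y)
    (hA : x ≤ 0.25 → 0.4330 - 0.2321 * x ≤ y ∧ c ≤ 0.87296 - 0.10911 * x)
    (hB : 0.25 ≤ x → 0.7498 - 1.5 * x ≤ y ∧ c ≤ 0.93427 - 0.3503 * x)
    (hx1 : 0 ≤ x) (hx2 : x ≤ 0.5) (ht0 : π / 6 ≤ t) (ht1 : t ≤ 5 * π / 24)
    (ht2 : 0.25 ≤ x → t ≤ 7 * π / 36) :
    3.269 ≤ cos t * (1 / P) + sin t * (1 / Q) + cos (7 * π / 18 - t) * (1 / P') +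
      sin (7 * π / 18 - t) * (1 / Q') := by
  have hpi := pi_pos
  rcases le_total x 0.25 with hx | hx
  · obtain ⟨a1, a2⟩ := hA hx
    refine btw (t0 := π / 6) (t1 := 5 * π / 24) (by linarith) ht0 ht1 (by linarith) (by linarith)
      (by norm_num) (e30 h.hP h.hQ h.hP' h.hQ' ?_) (e37 h.hP h.hQ h.hP' h.hQ' ?_)
    · exact pA2 h.hP h.hQ h.hP' h.hQ' h.p2 h.p2' h.q2 h.q2' h.hr a1 a2 hx1 hx
    · exact pA1 h.hP h.hQ h.hP' h.hQ' h.p2 h.p2' h.q2 h.q2' h.hr a1 a2 hx1 hx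
  · obtain ⟨a1, a2⟩ := hB hx
    refine btw (t0 := π / 6) (t1 := 7 * π / 36) (by linarith) ht0 (ht2 hx) (by linarith)
      (by linarith) (by norm_num) (e30 h.hP h.hQ h.hP' h.hQ' ?_) (e35 h.hP h.hQ h.hP' h.hQ' ?_)
    · exact pB2 h.hP h.hQ h.hP' h.hQ' h.p2 h.p2' h.q2 h.q2' h.hr a1 a2 hx hx2
    · exact pB1 h.hP h.hQ h.hP' h.hQ' h.p2 h.p2' h.q2 h.q2' h.hr a1 a2 hx hx2

/-- The half `0 ≤ al`. -/
theorem armHb_pos {al r Up Um G₁ G₂ : ℝ} (h0 : 0 ≤ al) (h1 : al ≤ π / 6) (h : Arm al r Up Um)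
    (hR : r ≤ cos al - √(1 / 4 - sin al ^ 2)) (hm : Um ≤ G₁) (hp : Up ≤ G₂)
    (hG2 : G₂ ≤ π / 2 - al) (hK2 : 5 * π / 12 - al / 2 ≤ G₂) (hS : G₁ + G₂ ≤ 160 / 180 * π) :
    r ≤ br G₁ Um / 2 + br G₂ Up / 2 := by
  have hpi := pi_pos
  have p1 := pi_gt_d6
  have p2 := pi_lt_d6
  rcases h.r0.eq_or_lt with hr0 | hr0
  · rw [br_zero (b := π / 3 - al) (by linarith) (by linarith) h.up0 h.wp h.up hr0.symm,
      br_zero (b := π / 3 + al) (by linarith) (by linarith) h.um0 h.wm h.um hr0.symm, ← hr0]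
    norm_num
  obtain ⟨P, Q, hs⟩ := sideQ (b := π / 3 - al) (G := G₂) (G0 := G₂) (by linarith)
    (by linarith) h.up0 h.wp h.up hr0 hp le_rfl (by linarith)
  obtain ⟨P', Q', hs'⟩ := sideQ (b := π / 3 + al) (G := G₁) (G0 := 8 * π / 9 - G₂) (by linarith)
    (by linarith) h.um0 h.wm h.um hr0 hm (by linarith) (by linarith)
  obtain ⟨t, et⟩ : ∃ t, t = π / 4 + (π / 3 - al) / 2 - G₂ / 2 := ⟨_, rfl⟩
  have et' : π / 4 + (π / 3 + al) / 2 - (8 * π / 9 - G₂) / 2 = 7 * π / 18 - t := by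
    rw [et]
    ring
  have hle := hs.le
  have hle' := hs'.le
  rw [← et] at hle
  rw [et'] at hle'
  have sb : sin (π / 3 - al) = √3 / 2 * cos al - sin al / 2 := by
    rw [sin_sub, sin_pi_div_three, cos_pi_div_three]
    ring
  have sb' : sin (π / 3 + al) = √3 / 2 * cos al + sin al / 2 := by
    rw [sin_add, sin_pi_div_three, cos_pi_div_three]
    ring
  have sw := sin_rel h.up
  have sw' := sin_rel h.um
  have hsin0 : 0 ≤ sin al := sin_nonneg_of_nonneg_of_le_pi h0 (by linarith)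
  have hsin1 : sin al ≤ 0.5 := by
    have h5 : sin al ≤ sin (π / 6) := sin_le_sin_of_le_of_le_pi_div_two (by linarith)
      (by linarith) h1
    rw [sin_pi_div_six] at h5
    linarith
  have hcos0 : 0 ≤ cos al := cos_nonneg_of_neg_pi_div_two_le_of_le (by linarith) (by linarith)
  have hsc := sin_sq_add_cos_sq al
  have hsal : sin al ≤ al := sin_le h0
  have h3 : 0 < √3 := by positivity
  have hT : Two P Q P' Q' (sin al) (√3 / 2 * cos al) (√3 / 2 * r)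
      (√3 / 2 * √(1 / 4 - sin al ^ 2)) := by
    refine ⟨hs.p0, hs.q0, hs'.p0, hs'.q0, ?_, ?_, ?_, ?_, ?_⟩
    · have := hs.pp
      rw [sw, sb] at this
      linarith
    · have := hs'.pp
      rw [sw', sb'] at this
      linarith
    · intro m hm0
      have k1 := hs.qq m hm0
      have k2 := qbp h0 h1
      rw [sw, sb] at k1
      have e : (1 - (√3 / 2 * cos al - sin al / 2 - √3 / 2 * r) + m ^ 2) / (2 * m) =
        (1 - √3 / 2 * cos al + sin al / 2 + √3 / 2 * r + m ^ 2) / (2 * m) := by ring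
      rw [e] at k1
      linarith
    · intro m hm0
      have k1 := hs'.qq m hm0
      have k2 := qbm h0 h1
      rw [sw', sb'] at k1
      have e : (1 - (√3 / 2 * cos al + sin al / 2 - √3 / 2 * r) + m ^ 2) / (2 * m) =
        (1 - √3 / 2 * cos al - sin al / 2 + √3 / 2 * r + m ^ 2) / (2 * m) := by ring
      rw [e] at k1
      linarith
    · have := mul_le_mul_of_nonneg_left hR (show 0 ≤ √3 / 2 by positivity)
      linarith
  have hN := numb (t := t) hT (fun hx => ⟨yA hsin0 hx, cA hsc hsin0 (by linarith) hcos0⟩)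
    (fun hx => ⟨yB hx hsin1, cB hsc hsin0 (by linarith) hcos0⟩) hsin0 hsin1
    (by rw [et]; linarith) (by rw [et]; linarith) (fun hx => by rw [et]; linarith)
  refine fin_mul (k := √3 / (2 * √2))
    (S := (cos t * (1 / P) + sin t * (1 / Q)) / 2 + (cos (7 * π / 18 - t) * (1 / P') +
      sin (7 * π / 18 - t) * (1 / Q')) / 2) hr0.le (one_le_kap (by linarith)) ?_
  linarith

end ArmP

open Real ArmP

theorem armHb : ST_ARMHb := by
  intro al r Up Um G₁ G₂ hal h hR hm hp hG1 hG2 hK1 hK2 hS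
  have hpi := pi_pos
  rw [abs_le] at hal
  obtain ⟨ha1, ha2⟩ := hal
  rcases le_total 0 al with h0 | h0
  · exact armHb_pos h0 ha2 h hR hm hp hG2 hK2 hS
  · have hR' : r ≤ cos (-al) - √(1 / 4 - sin (-al) ^ 2) := by
      rw [cos_neg, sin_neg, neg_sq]
      exact hR
    have := armHb_pos (al := -al) (r := r) (Up := Um) (Um := Up) (G₁ := G₂) (G₂ := G₁)
      (by linarith) (by linarith) h.mirror hR' hp hm (by linarith) (by linarith) (by linarith)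
    linarith

end NH
end H11ST
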